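import Pool.Agent.H68.L.R_seed8.H387R2.U3
import Pool.Agent.H68.L.R_seed8.Helper601.Mertens
import Pool.Agent.H68.L.R_seed8.W262.RK.Defs

/-!
# Mertens' theorem for the primes with `ψ(p) = 1`

From the prime number theorem in arithmetic progressions. The summation by parts is adapted from
`Pool.Agent.H554R3.NA.TaskMAP`.
-/

set_option autoImplicit false

namespace Pool.Agent.Y669

open Finset Filter Pool.Agent.W262.RK

lemma mstep_bound (n : ℕ) (hn : 3 ≤ n) (hl : 1 ≤ Real.log n) :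
    1 / (((n + 1 : ℕ) : ℝ) * Real.log n ^ 6) ≤
      2 * (1 / Real.log n - 1 / Real.log ((n + 1 : ℕ) : ℝ)) := by
  have hn0 : (3:ℝ) ≤ n := by exact_mod_cast hn
  set a := Real.log n with ha
  set b := Real.log ((n + 1 : ℕ) : ℝ) with hb
  have hab : a ≤ b := Real.log_le_log (by linarith) (by push_cast; linarith)
  have hb0 : 0 < b := by linarith
  have hdiff : 1 / ((n + 1 : ℕ) : ℝ) ≤ b - a := by
    have h1 := Real.one_sub_inv_le_log_of_pos (x := ((n + 1 : ℕ) : ℝ) / n) (by positivity)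
    rw [Real.log_div (by positivity) (by positivity)] at h1
    rw [inv_div] at h1
    have h2 : 1 - (n:ℝ) / ((n + 1 : ℕ) : ℝ) = 1 / ((n + 1 : ℕ) : ℝ) := by
      push_cast; field_simp; ring
    linarith
  have hb2 : b ≤ 2 * a := by
    have h1 : ((n + 1 : ℕ) : ℝ) ≤ (n:ℝ) ^ 2 := by push_cast; nlinarith
    have h2 : b ≤ Real.log ((n:ℝ) ^ 2) := Real.log_le_log (by positivity) h1
    rw [Real.log_pow] at h2
    push_cast at h2
    exact h2
  have ha0 : 0 < a := by linarith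
  have e1 : 1 / a - 1 / b = (b - a) / (a * b) := by field_simp
  rw [e1]
  have hN : (0:ℝ) < ((n + 1 : ℕ) : ℝ) := by positivity
  calc 1 / (((n + 1 : ℕ) : ℝ) * a ^ 6) = (1 / ((n + 1 : ℕ) : ℝ)) * (1 / a ^ 6) := by
        field_simp
    _ ≤ (b - a) * (2 / (a * b)) := by
        refine mul_le_mul hdiff ?_ (by positivity) (by linarith)
        rw [div_le_div_iff₀ (by positivity) (by positivity)]
        have h3 : a * b ≤ a * (2 * a) := mul_le_mul_of_nonneg_left hb2 ha0.le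
        have h4 : a ^ 2 ≤ a ^ 6 := pow_le_pow_right₀ hl (by norm_num)
        nlinarith
    _ = 2 * ((b - a) / (a * b)) := by ring

lemma mabel (T D : ℕ → ℝ) (hT : ∀ n, T (n + 1) = T n + (D (n + 1) - D n) / ((n + 1 : ℕ) : ℝ))
    (M : ℕ) (hM : 3 ≤ M) (hl : 1 ≤ Real.log M)
    (hD : ∀ n : ℕ, M ≤ n → |D n| ≤ n / Real.log n ^ 6) (N : ℕ) (hN : M ≤ N) :
    |T N - T M - D N / N + D M / M| ≤ 2 * (1 / Real.log M - 1 / Real.log N) := by
  induction N, hN using Nat.le_induction with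
  | base => simp
  | succ N hN ih =>
    have hN3 : 3 ≤ N := hM.trans hN
    have hNr : (3:ℝ) ≤ N := by exact_mod_cast hN3
    have hlN : 1 ≤ Real.log N := hl.trans (Real.log_le_log (by exact_mod_cast (by omega : 0 < M))
      (by exact_mod_cast hN))
    have hs := mstep_bound N hN3 hlN
    have e : T (N + 1) - T M - D (N + 1) / ((N + 1 : ℕ) : ℝ) + D M / M =
        (T N - T M - D N / N + D M / M) + D N * (1 / (N * ((N + 1 : ℕ) : ℝ))) := by
      rw [hT]
      have : (0:ℝ) < N := by linarith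
      push_cast
      field_simp
      ring
    rw [e]
    refine (abs_add_le _ _).trans ?_
    have h2 : |D N * (1 / (N * ((N + 1 : ℕ) : ℝ)))| ≤ 1 / (((N + 1 : ℕ) : ℝ) * Real.log N ^ 6) := by
      rw [abs_mul, abs_of_nonneg (by positivity : (0:ℝ) ≤ 1 / (N * ((N + 1 : ℕ) : ℝ)))]
      calc |D N| * (1 / (N * ((N + 1 : ℕ) : ℝ))) ≤ (N / Real.log N ^ 6) * (1 / (N * ((N + 1 : ℕ) : ℝ))) :=
            mul_le_mul_of_nonneg_right (hD N hN) (by positivity)
        _ = 1 / (((N + 1 : ℕ) : ℝ) * Real.log N ^ 6) := by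
            have : (0:ℝ) < N := by linarith
            have : (0:ℝ) < Real.log N := by linarith
            field_simp
    linarith

lemma mabel' (T D : ℕ → ℝ) (hT : ∀ n, T (n + 1) = T n + (D (n + 1) - D n) / ((n + 1 : ℕ) : ℝ))
    (M : ℕ) (hM : 3 ≤ M) (hl : 1 ≤ Real.log M)
    (hD : ∀ n : ℕ, M ≤ n → |D n| ≤ n / Real.log n ^ 6) (N : ℕ) (hN : M ≤ N) :
    |T N - T M| ≤ 4 / Real.log M := by
  have h := mabel T D hT M hM hl hD N hN
  have hlN : Real.log M ≤ Real.log N := Real.log_le_log (by exact_mod_cast (by omega : 0 < M))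
      (by exact_mod_cast hN)
  have hb : ∀ n : ℕ, M ≤ n → |D n / n| ≤ 1 / Real.log M := by
    intro n hn
    have hn0 : (0:ℝ) < n := by exact_mod_cast (by omega : 0 < n)
    have hln : Real.log M ≤ Real.log n := Real.log_le_log (by exact_mod_cast (by omega : 0 < M))
      (by exact_mod_cast hn)
    rw [abs_div, abs_of_pos hn0, div_le_div_iff₀ hn0 (by linarith)]
    have h1 := hD n hn
    have h2 : (n:ℝ) / Real.log n ^ 6 ≤ n / Real.log M := by
      refine div_le_div_of_nonneg_left hn0.le (by linarith) ?_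
      calc Real.log M ≤ Real.log n := hln
        _ = Real.log n ^ 1 := (pow_one _).symm
        _ ≤ Real.log n ^ 6 := pow_le_pow_right₀ (by linarith) (by norm_num)
    have h3 : |D n| * Real.log M ≤ n / Real.log M * Real.log M :=
      mul_le_mul_of_nonneg_right (h1.trans h2) (by linarith)
    rw [div_mul_cancel₀ _ (by linarith : Real.log M ≠ 0)] at h3
    linarith
  have h1 := hb N hN
  have h2 := hb M le_rfl
  have h3 : 0 ≤ 1 / Real.log N := by
    have : 0 < Real.log N := by linarith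
    positivity
  have e4 : 4 / Real.log M = 4 * (1 / Real.log M) := by ring
  rw [e4]
  rw [abs_le] at h h1 h2 ⊢
  constructor <;> linarith [h.1, h.2, h1.1, h1.2, h2.1, h2.2]

lemma mfilt_succ (p : ℕ → Prop) [DecidablePred p] (f : ℕ → ℝ) (n : ℕ) :
    ∑ q ∈ (Icc 1 (n + 1)).filter p, f q = ∑ q ∈ (Icc 1 n).filter p, f q +
      if p (n + 1) then f (n + 1) else 0 := by
  rw [sum_filter, sum_filter, sum_Icc_succ_top (by omega)]

/-- Mertens' theorem for a set of primes with a strong form of the prime number theorem -/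
theorem mer_of (A : ℕ → Prop) [DecidablePred A] (δ K : ℝ) (hK : 0 < K) (x0 : ℕ)
    (h : ∀ x : ℕ, x0 ≤ x → |(((Icc 1 x).filter (fun p => p.Prime ∧ A p)).card : ℝ) -
      δ * H343E.pi1 x| ≤ K * (x / Real.log x ^ 6)) :
    ∃ C : ℝ, 0 ≤ C ∧ ∀ x : ℕ, 3 ≤ x →
      |∑ p ∈ (Icc 1 x).filter (fun p => p.Prime ∧ A p), (1 : ℝ) / p -
        δ * Real.log (Real.log x)| ≤ C := by
  obtain ⟨C1, hC1⟩ := Pool.Agent.Helper601.Mertens.mertens_inv
  have hC10 : 0 ≤ C1 := (abs_nonneg _).trans (hC1 3 le_rfl)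
  obtain ⟨S, hS⟩ : ∃ S : ℕ → ℝ, S = fun x => ∑ p ∈ (Icc 1 x).filter (fun p => p.Prime ∧ A p),
    (1 : ℝ) / p := ⟨_, rfl⟩
  obtain ⟨P, hP⟩ : ∃ P : ℕ → ℝ, P = fun x => ∑ p ∈ (Icc 1 x).filter Nat.Prime,
    (1 : ℝ) / p := ⟨_, rfl⟩
  obtain ⟨D, hD⟩ : ∃ D : ℕ → ℝ, D = fun x => ((((Icc 1 x).filter (fun p => p.Prime ∧ A p)).card : ℝ)
    - δ * H343E.pi1 x) / K := ⟨_, rfl⟩
  obtain ⟨T, hT⟩ : ∃ T : ℕ → ℝ, T = fun x => (S x - δ * P x) / K := ⟨_, rfl⟩
  have hcard : ∀ x : ℕ, (((Icc 1 x).filter (fun p => p.Prime ∧ A p)).card : ℝ) =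
      ∑ p ∈ (Icc 1 x).filter (fun p => p.Prime ∧ A p), (1 : ℝ) := by
    intro x
    rw [sum_const, nsmul_eq_mul, mul_one]
  have hpi : ∀ x : ℕ, H343E.pi1 x = ∑ p ∈ (Icc 1 x).filter Nat.Prime, (1 : ℝ) := by
    intro x
    rw [sum_const, nsmul_eq_mul, mul_one]
    rfl
  have hTs : ∀ n, T (n + 1) = T n + (D (n + 1) - D n) / ((n + 1 : ℕ) : ℝ) := by
    intro n
    have f1 := mfilt_succ (fun p => p.Prime ∧ A p) (fun p => (1 : ℝ) / p) n
    have f2 := mfilt_succ Nat.Prime (fun p => (1 : ℝ) / p) n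
    have f3 := mfilt_succ (fun p => p.Prime ∧ A p) (fun _ => (1 : ℝ)) n
    have f4 := mfilt_succ Nat.Prime (fun _ => (1 : ℝ)) n
    rw [hT, hD]
    simp only
    rw [hS, hP]
    simp only
    rw [f1, f2, hcard, hcard, hpi, hpi, f3, f4]
    have h0 : ((n + 1 : ℕ) : ℝ) ≠ 0 := by positivity
    have hK0 : K ≠ 0 := hK.ne'
    by_cases h1 : (n + 1).Prime <;> by_cases h2 : A (n + 1) <;> simp only [h1, h2, and_self,
      and_true, and_false, if_true, if_false] <;> field_simp <;> ring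
  set M : ℕ := x0 + 3 with hM
  have hM3 : 3 ≤ M := by omega
  have hlog3 : 1 ≤ Real.log (3 : ℝ) := by
    rw [Real.le_log_iff_exp_le (by norm_num)]
    exact Real.exp_one_lt_d9.le.trans (by norm_num)
  have hlM : ∀ n : ℕ, 3 ≤ n → 1 ≤ Real.log n := fun n hn => hlog3.trans
    (Real.log_le_log (by norm_num) (by exact_mod_cast hn))
  have hDb : ∀ n : ℕ, M ≤ n → |D n| ≤ n / Real.log n ^ 6 := by
    intro n hn
    rw [hD]
    simp only
    rw [abs_div, abs_of_pos hK, div_le_iff₀ hK, mul_comm ((n : ℝ) / Real.log n ^ 6) K]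
    exact h n (by omega)
  have hab := mabel' T D hTs M hM3 (hlM M hM3) hDb
  -- the constants
  obtain ⟨B, hB⟩ : ∃ B : ℝ, B = ∑ x ∈ Icc 0 M, |S x - δ * Real.log (Real.log x)| := ⟨_, rfl⟩
  have hB0 : 0 ≤ B := by rw [hB]; exact sum_nonneg fun _ _ => abs_nonneg _
  refine ⟨B + K * 4 + |K * T M| + |δ| * C1, by positivity, fun x hx => ?_⟩
  change |_ - _| ≤ _
  have e0 : ∑ p ∈ (Icc 1 x).filter (fun p => p.Prime ∧ A p), (1 : ℝ) / p = S x := by rw [hS]
  rw [e0]
  rcases le_or_gt x M with hxM | hxM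
  · have h1 : |S x - δ * Real.log (Real.log x)| ≤ B := by
      rw [hB]
      exact single_le_sum (f := fun x : ℕ => |S x - δ * Real.log (Real.log x)|)
        (fun _ _ => abs_nonneg _) (mem_Icc.2 ⟨Nat.zero_le _, hxM⟩)
    have h2 : 0 ≤ K * 4 + |K * T M| + |δ| * C1 := by positivity
    linarith
  · have h1 := hab x hxM.le
    have h2 := hC1 x hx
    have h3 : S x = K * T x + δ * P x := by
      rw [hT]
      field_simp
      ring
    have h4 : 4 / Real.log M ≤ 4 := by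
      rw [div_le_iff₀ (by linarith [hlM M hM3])]
      linarith [hlM M hM3]
    have e1 : S x - δ * Real.log (Real.log x) = K * (T x - T M) + K * T M +
        δ * (P x - Real.log (Real.log x)) := by
      rw [h3]; ring
    rw [e1]
    have h5 : |K * (T x - T M)| ≤ K * 4 := by
      rw [abs_mul, abs_of_pos hK]
      exact mul_le_mul_of_nonneg_left (h1.trans h4) hK.le
    have h6 : |δ * (P x - Real.log (Real.log x))| ≤ |δ| * C1 := by
      rw [abs_mul]
      refine mul_le_mul_of_nonneg_left ?_ (abs_nonneg _)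
      rw [hP]
      exact h2
    have h7 := abs_add_le (K * (T x - T M) + K * T M) (δ * (P x - Real.log (Real.log x)))
    have h8 := abs_add_le (K * (T x - T M)) (K * T M)
    linarith

lemma card_ker (N : ℕ) [NeZero N] (ψ : DirichletCharacter ℂ N) (m : ℕ) (hm : orderOf ψ = m)
    (hm0 : m ≠ 0) :
    ((univ.filter (fun a : ZMod N => ψ a = 1)).card : ℝ) * m = Nat.totient N := by
  classical
  have hpow : ψ ^ m = 1 := by rw [← hm]; exact pow_orderOf_eq_one ψ
  have h1 : ∀ a : ZMod N, ∑ j ∈ range m, (ψ ^ j) a = if ψ a = 1 then (m : ℂ) else 0 := by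
    intro a
    by_cases ha : IsUnit a
    · have e1 : ∀ j ∈ range m, (ψ ^ j) a = (ψ a) ^ j := fun j _ => by
        rcases Nat.eq_zero_or_pos j with hj | hj
        · subst hj
          rw [pow_zero, pow_zero, MulChar.one_apply ha]
        · exact MulChar.pow_apply' ψ (by omega) a
      rw [sum_congr rfl e1]
      split_ifs with h
      · rw [h]; simp
      · have h2 : (ψ a) ^ m = 1 := by
          rw [← MulChar.pow_apply' ψ hm0 a, hpow, MulChar.one_apply ha]
        rw [geom_sum_eq h, h2, sub_self, zero_div]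
    · have h0 : ∀ j ∈ range m, (ψ ^ j) a = 0 := fun j _ => MulChar.map_nonunit _ ha
      rw [sum_congr rfl h0, sum_const_zero, if_neg]
      rw [MulChar.map_nonunit ψ ha]
      exact zero_ne_one
  have h2 : ∑ a : ZMod N, ∑ j ∈ range m, (ψ ^ j) a =
      ((univ.filter (fun a : ZMod N => ψ a = 1)).card : ℂ) * m := by
    rw [sum_congr rfl fun a _ => h1 a, ← sum_filter, sum_const, nsmul_eq_mul]
  rw [sum_comm] at h2
  have h3 : ∀ j ∈ range m, ∑ a : ZMod N, (ψ ^ j) a = if j = 0 then (Nat.totient N : ℂ) else 0 := by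
    intro j hj
    split_ifs with hj0
    · rw [hj0, pow_zero, MulChar.sum_one_eq_card_units, ZMod.card_units_eq_totient]
    · apply MulChar.sum_eq_zero_of_ne_one
      intro h
      have h4 : orderOf ψ ∣ j := orderOf_dvd_of_pow_eq_one h
      rw [hm] at h4
      have := Nat.le_of_dvd (Nat.pos_of_ne_zero hj0) h4
      rw [mem_range] at hj
      omega
  rw [sum_congr rfl h3, sum_ite_eq' (range m) 0 fun _ => (Nat.totient N : ℂ),
    if_pos (mem_range.2 (Nat.pos_of_ne_zero hm0))] at h2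
  exact_mod_cast h2.symm

lemma cnt_ker (N : ℕ) [NeZero N] (ψ : DirichletCharacter ℂ N) (x : ℕ) :
    (((Icc 1 x).filter (fun p : ℕ => p.Prime ∧ ψ (p : ZMod N) = 1)).card : ℝ) =
      ∑ a ∈ univ.filter (fun a : ZMod N => ψ a = 1), H343E.piAP x N a.val := by
  classical
  unfold H343E.piAP
  have hmaps : ∀ p ∈ (Icc 1 x).filter (fun p : ℕ => p.Prime ∧ ψ (p : ZMod N) = 1),
      ((p : ℕ) : ZMod N) ∈ univ.filter (fun a : ZMod N => ψ a = 1) := fun p hp =>
    mem_filter.2 ⟨mem_univ _, (mem_filter.1 hp).2.2⟩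
  rw [card_eq_sum_card_fiberwise hmaps]
  push_cast
  refine sum_congr rfl fun a ha => ?_
  congr 2
  ext p
  rw [mem_filter, mem_filter, mem_filter]
  have h1 : (p ≡ a.val [MOD N]) ↔ (p : ZMod N) = a := by
    rw [← ZMod.natCast_eq_natCast_iff, ZMod.natCast_zmod_val]
  rw [h1]
  have h2 := (mem_filter.1 ha).2
  constructor
  · rintro ⟨⟨q1, q2, q3⟩, q4⟩
    exact ⟨q1, q2, q4⟩
  · rintro ⟨q1, q2, q3⟩
    exact ⟨⟨q1, q2, by rw [q3]; exact h2⟩, q3⟩

/-- Mertens' theorem for the primes with `ψ(p) = 1` -/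
theorem mer_psi (N : ℕ) [NeZero N] (ψ : DirichletCharacter ℂ N) (m : ℕ) (hm : orderOf ψ = m)
    (hm0 : m ≠ 0) : ∃ C : ℝ, 0 ≤ C ∧ ∀ x : ℕ, 3 ≤ x →
      |∑ p ∈ (Icc 1 x).filter (fun p : ℕ => p.Prime ∧ ψ (p : ZMod N) = 1), (1 : ℝ) / p -
        (1 / (m : ℝ)) * Real.log (Real.log x)| ≤ C := by
  classical
  obtain ⟨x0, hx0⟩ := Pool.Agent.H387R2.Uni.siegel
  have hN1 : 1 ≤ N := Nat.one_le_iff_ne_zero.2 (NeZero.ne N)
  have hlogx : Tendsto (fun x : ℕ => Real.log (x:ℝ)) atTop atTop :=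
    Real.tendsto_log_atTop.comp tendsto_natCast_atTop_atTop
  obtain ⟨x1, hx1⟩ := eventually_atTop.1 (hlogx.eventually_ge_atTop (N : ℝ))
  have hm1 : (0 : ℝ) < m := by exact_mod_cast Nat.pos_of_ne_zero hm0
  have hφ : (0 : ℝ) < Nat.totient N := by exact_mod_cast Nat.totient_pos.2 hN1
  have hker := card_ker N ψ m hm hm0
  refine mer_of (fun p : ℕ => ψ (p : ZMod N) = 1) (1 / (m : ℝ))
    ((univ.filter (fun a : ZMod N => ψ a = 1)).card + 1) (by positivity) (max (max x0 x1) 3)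
    fun x hx => ?_
  have hxx0 : x0 ≤ x := (le_max_left _ _).trans ((le_max_left _ _).trans hx)
  have hxx1 : x1 ≤ x := (le_max_right _ _).trans ((le_max_left _ _).trans hx)
  have hxx3 : 3 ≤ x := (le_max_right _ _).trans hx
  have hNx : (N : ℝ) ≤ Real.log x ^ 2 := by
    have h1 := hx1 x hxx1
    have h2 : (1 : ℝ) ≤ N := by exact_mod_cast hN1
    nlinarith
  have hpos : 0 ≤ (x : ℝ) / Real.log x ^ 6 := by positivity
  have e1 : (1 / (m : ℝ)) * H343E.pi1 x =
      ∑ _a ∈ univ.filter (fun a : ZMod N => ψ a = 1), H343E.pi1 x / (Nat.totient N : ℝ) := by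
    rw [sum_const, nsmul_eq_mul, ← hker]
    have hc : ((univ.filter (fun a : ZMod N => ψ a = 1)).card : ℝ) ≠ 0 := by
      intro h
      rw [h, zero_mul] at hker
      exact hφ.ne hker
    field_simp
  rw [cnt_ker, e1, ← sum_sub_distrib]
  refine (abs_sum_le_sum_abs _ _).trans ?_
  have h3 : ∀ a ∈ univ.filter (fun a : ZMod N => ψ a = 1),
      |H343E.piAP x N a.val - H343E.pi1 x / (Nat.totient N : ℝ)| ≤ x / Real.log x ^ 6 := by
    intro a ha
    refine hx0 x hxx0 N hN1 hNx a.val (ZMod.val_lt a) ?_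
    have h4 : IsUnit a := by
      by_contra h5
      have h6 := (mem_filter.1 ha).2
      rw [MulChar.map_nonunit ψ h5] at h6
      exact zero_ne_one h6
    rw [← ZMod.isUnit_iff_coprime, ZMod.natCast_zmod_val]
    exact h4
  refine (sum_le_sum h3).trans ?_
  rw [sum_const, nsmul_eq_mul, add_mul, one_mul]
  linarith

lemma mer_PS (N : ℕ) [NeZero N] (ψ : DirichletCharacter ℂ N) (m : ℕ) (hm : orderOf ψ = m)
    (hm0 : m ≠ 0) : ∃ C : ℝ, 0 ≤ C ∧ ∀ z y : ℕ, 2 ≤ y →
    ∑ p ∈ (PS z y).filter (fun p : ℕ => ψ (p : ZMod N) = 1), (1 : ℝ) / p ≤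
      (1 / (m : ℝ)) * Real.log (Real.log y) + C := by
  classical
  obtain ⟨C, hC, h⟩ := mer_psi N ψ m hm hm0
  have hm1 : (0 : ℝ) < m := by exact_mod_cast Nat.pos_of_ne_zero hm0
  refine ⟨C + (1 / (m : ℝ)) * (|Real.log (Real.log 3)| + |Real.log (Real.log 2)|), by positivity,
    fun z y hy => ?_⟩
  have hsub : (PS z y).filter (fun p : ℕ => ψ (p : ZMod N) = 1) ⊆
      (Icc 1 (max y 3)).filter (fun p : ℕ => p.Prime ∧ ψ (p : ZMod N) = 1) := by
    intro p hp
    rw [mem_filter] at hp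
    obtain ⟨hp1, hp2⟩ := hp
    unfold PS at hp1
    rw [mem_filter, mem_Ioc] at hp1
    rw [mem_filter, mem_Icc]
    exact ⟨⟨hp1.2.one_lt.le, hp1.1.2.trans (le_max_left _ _)⟩, hp1.2, hp2⟩
  have h1 := sum_le_sum_of_subset_of_nonneg hsub (fun p _ _ => (by positivity : (0 : ℝ) ≤ 1 / (p : ℝ)))
  have h2 := (abs_le.1 (h (max y 3) (le_max_right _ _))).2
  have h3 : (1 / (m : ℝ)) * Real.log (Real.log ((max y 3 : ℕ) : ℝ)) ≤
      (1 / (m : ℝ)) * Real.log (Real.log y) +
        (1 / (m : ℝ)) * (|Real.log (Real.log 3)| + |Real.log (Real.log 2)|) := by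
    rw [← mul_add]
    refine mul_le_mul_of_nonneg_left ?_ (by positivity)
    rcases le_or_gt 3 y with h3 | h3
    · rw [max_eq_left h3]
      have := abs_nonneg (Real.log (Real.log 3))
      have := abs_nonneg (Real.log (Real.log 2))
      linarith
    · have h4 : y = 2 := by omega
      subst h4
      have e : ((max 2 3 : ℕ) : ℝ) = 3 := by norm_num
      rw [e]
      have h5 := le_abs_self (Real.log (Real.log 3))
      have h6 := neg_abs_le (Real.log (Real.log 2))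
      push_cast
      linarith
  linarith

lemma mer_PS' (N : ℕ) [NeZero N] (ψ : DirichletCharacter ℂ N) (m : ℕ) (hm : orderOf ψ = m)
    (hm0 : m ≠ 0) : ∃ C : ℝ, 0 ≤ C ∧ ∀ z y : ℕ, 2 ≤ y →
    ∑ p ∈ (PS z y).filter (fun p : ℕ => ¬ ψ (p : ZMod N) = 1), (1 : ℝ) / p ≤
      (1 - 1 / (m : ℝ)) * Real.log (Real.log y) + C := by
  classical
  obtain ⟨C, hC, h⟩ := mer_psi N ψ m hm hm0
  obtain ⟨C1, hC1⟩ := Pool.Agent.Helper601.Mertens.mertens_inv
  have hC10 : 0 ≤ C1 := (abs_nonneg _).trans (hC1 3 le_rfl)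
  have hm1 : (0 : ℝ) < m := by exact_mod_cast Nat.pos_of_ne_zero hm0
  have hm2 : (0 : ℝ) ≤ 1 - 1 / (m : ℝ) := by
    rw [sub_nonneg, div_le_one hm1]
    exact_mod_cast Nat.pos_of_ne_zero hm0
  refine ⟨C1 + C + (1 - 1 / (m : ℝ)) * (|Real.log (Real.log 3)| + |Real.log (Real.log 2)|),
    by positivity, fun z y hy => ?_⟩
  have hsub : (PS z y).filter (fun p : ℕ => ¬ ψ (p : ZMod N) = 1) ⊆
      (Icc 1 (max y 3)).filter (fun p : ℕ => p.Prime ∧ ¬ ψ (p : ZMod N) = 1) := by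
    intro p hp
    rw [mem_filter] at hp
    obtain ⟨hp1, hp2⟩ := hp
    unfold PS at hp1
    rw [mem_filter, mem_Ioc] at hp1
    rw [mem_filter, mem_Icc]
    exact ⟨⟨hp1.2.one_lt.le, hp1.1.2.trans (le_max_left _ _)⟩, hp1.2, hp2⟩
  have h1 := sum_le_sum_of_subset_of_nonneg hsub (fun p _ _ => (by positivity : (0 : ℝ) ≤ 1 / (p : ℝ)))
  have h2 := (abs_le.1 (h (max y 3) (le_max_right _ _))).1
  have h2' := (abs_le.1 (hC1 (max y 3) (le_max_right _ _))).2
  have hsplit : ∑ p ∈ (Icc 1 (max y 3)).filter Nat.Prime, (1 : ℝ) / p =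
      ∑ p ∈ (Icc 1 (max y 3)).filter (fun p : ℕ => p.Prime ∧ ψ (p : ZMod N) = 1), (1 : ℝ) / p +
      ∑ p ∈ (Icc 1 (max y 3)).filter (fun p : ℕ => p.Prime ∧ ¬ ψ (p : ZMod N) = 1),
        (1 : ℝ) / p := by
    rw [← sum_filter_add_sum_filter_not ((Icc 1 (max y 3)).filter Nat.Prime)
      (fun p : ℕ => ψ (p : ZMod N) = 1), filter_filter, filter_filter]
  have h3 : (1 - 1 / (m : ℝ)) * Real.log (Real.log ((max y 3 : ℕ) : ℝ)) ≤
      (1 - 1 / (m : ℝ)) * Real.log (Real.log y) +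
        (1 - 1 / (m : ℝ)) * (|Real.log (Real.log 3)| + |Real.log (Real.log 2)|) := by
    rw [← mul_add]
    refine mul_le_mul_of_nonneg_left ?_ hm2
    rcases le_or_gt 3 y with h3 | h3
    · rw [max_eq_left h3]
      have := abs_nonneg (Real.log (Real.log 3))
      have := abs_nonneg (Real.log (Real.log 2))
      linarith
    · have h4 : y = 2 := by omega
      subst h4
      have e : ((max 2 3 : ℕ) : ℝ) = 3 := by norm_num
      rw [e]
      have h5 := le_abs_self (Real.log (Real.log 3))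
      have h6 := neg_abs_le (Real.log (Real.log 2))
      push_cast
      linarith
  linarith

end Pool.Agent.Y669
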